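import Mathlib
import Pool.Agent.H93.Lu7

namespace Pool.Agent.Results.MP_b531f7_gt.POne

/-- The space `ℓ₁` of real sequences. -/
abbrev Ell1 : Type := lp (fun _ : ℕ => ℝ) 1

/-- The distance `‖u - v‖₁` in `ℓ₁`. -/
noncomputable def d1 (u v : Ell1) : ℝ := ‖u - v‖

/-- `Y` embeds isometrically into `ℓ₁`. -/
def IsoEmb (Y : Type) [MetricSpace Y] : Prop :=
  ∃ f : Y → Ell1, ∀ x y : Y, d1 (f x) (f y) = dist x y

/-- `Y` embeds into `ℓ₁` with distortion at most `D`. -/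
def DistEmb (Y : Type) [MetricSpace Y] (D : ℝ) : Prop :=
  ∃ (f : Y → Ell1) (s : ℝ), 0 < s ∧
    ∀ x y : Y, s * dist x y ≤ d1 (f x) (f y) ∧ d1 (f x) (f y) ≤ s * D * dist x y

/-- The case `p = 1`: a union of two isometric copies of subsets of `ℓ₁` with no embedding into
`ℓ₁` of finite distortion. -/
theorem result : ∃ (X : Type) (_ : MetricSpace X) (A B : Set X), A ∪ B = Set.univ ∧
    IsoEmb A ∧ IsoEmb B ∧ ∀ D : ℝ, ¬ DistEmb X D := by
  obtain ⟨m, h1, h2, h3⟩ := H93Lu.main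
  obtain ⟨J, hJ⟩ := H93Lu.exists_iso
  refine ⟨H93Lu.L1 ⊕ H93Lu.L1, m, Set.range Sum.inl, Set.range Sum.inr,
    Set.range_inl_union_range_inr, ⟨fun x => Sum.elim id id x.1, ?_⟩,
    ⟨fun x => Sum.elim id id x.1, ?_⟩, ?_⟩
  · rintro ⟨_, x, rfl⟩ ⟨_, y, rfl⟩
    rw [d1, ← dist_eq_norm]
    exact (h1 x y).symm
  · rintro ⟨_, x, rfl⟩ ⟨_, y, rfl⟩
    rw [d1, ← dist_eq_norm]
    exact (h2 x y).symm
  · rintro D ⟨f, s, hs, hf⟩
    refine h3 ℕ MeasureTheory.Measure.count (fun x => J (f x)) s (s * D) hs fun x y => ?_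
    rw [hJ, dist_eq_norm]
    exact hf x y

end Pool.Agent.Results.MP_b531f7_gt.POne
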